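import Mathlib

namespace Pool.Agent.H.MP_4c49f5_co

open Finset

variable {V : Type*} [Fintype V] [DecidableEq V] (m : V → V → ℕ) (r : V)

def dg (v : V) (Z : Finset V) : ℕ := ∑ z ∈ Z, m v z

def D (v : V) : ℕ := dg m v (univ.erase v)

def S (h : V → ℕ) : Finset V := insert r (univ.filter fun v => h v ≠ 0)

def Park (h : V → ℕ) : Prop :=
  h r = 0 ∧ ∀ Y : Finset V, Y.Nonempty → (∀ v ∈ Y, h v ≠ 0) → ∃ v ∈ Y, h v ≤ dg m v (S r h \ Y)

def N : ℕ := ∑ u, ∑ v, m u v

open Classical in
noncomputable def Cfg : Finset (V → ℕ) :=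
  (Fintype.piFinset fun _ => range (N m + 1)).filter (Park m r)

def cut (X Z : Finset V) : ℕ := ∑ v ∈ X \ Z, dg m v Z

def w (h : V → ℕ) : ℕ := ∑ v, h v + cut m univ (S r h)

omit [Fintype V] [DecidableEq V] in
lemma dg_mono (v : V) {Z Z' : Finset V} (h : Z ⊆ Z') : dg m v Z ≤ dg m v Z' :=
  sum_le_sum_of_subset h

omit [DecidableEq V] in
lemma dg_le_N (v : V) (Z : Finset V) : dg m v Z ≤ N m :=
  (dg_mono m v (subset_univ Z)).trans
    (single_le_sum (f := fun u => ∑ v, m u v) (fun _ _ => Nat.zero_le _) (mem_univ v))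

lemma dg_le_D {v : V} {Z : Finset V} (hv : v ∉ Z) : dg m v Z ≤ D m v :=
  dg_mono m v fun z hz => mem_erase.2 ⟨fun e => hv (e ▸ hz), mem_univ _⟩

lemma mem_S {h : V → ℕ} {v : V} : v ∈ S r h ↔ v = r ∨ h v ≠ 0 := by simp [S]

lemma r_mem (h : V → ℕ) : r ∈ S r h := (mem_S r).2 (Or.inl rfl)

lemma Park.le {h : V → ℕ} (hp : Park m r h) (v : V) : h v ≤ dg m v (S r h \ {v}) := by
  by_cases h0 : h v = 0
  · omega
  · obtain ⟨u, hu, hu'⟩ := hp.2 {v} (singleton_nonempty v) (by simpa using h0)
    rw [mem_singleton] at hu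
    exact hu ▸ hu'

lemma Park.le_D {h : V → ℕ} (hp : Park m r h) (v : V) : h v ≤ D m v :=
  (hp.le m r v).trans (dg_le_D m (by simp))

lemma mem_Cfg {h : V → ℕ} : h ∈ Cfg m r ↔ Park m r h := by
  classical
  unfold Cfg
  rw [mem_filter]
  refine ⟨fun a => a.2, fun a => ⟨?_, a⟩⟩
  rw [Fintype.mem_piFinset]
  intro v
  have := (a.le m r v).trans (dg_le_N m v _)
  rw [mem_range]; omega

lemma S_sub {h h' : V → ℕ} (he : ∀ v ∈ S r h, h' v = h v) : S r h ⊆ S r h' := by
  intro v hv
  have := he v hv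
  rw [mem_S] at hv ⊢
  rcases hv with a | a
  · exact Or.inl a
  · exact Or.inr (by omega)

lemma Park.ext {h h' : V → ℕ} (hp : Park m r h) (he : ∀ v ∈ S r h, h' v = h v)
    (hl : ∀ v ∉ S r h, h' v ≤ dg m v (S r h)) : Park m r h' := by
  refine ⟨by rw [he r (r_mem r h), hp.1], fun Y hY hY0 => ?_⟩
  have hs := S_sub r he
  by_cases hZ : (Y ∩ S r h).Nonempty
  · obtain ⟨u, hu, hu'⟩ := hp.2 _ hZ (fun v hv => by
      rw [mem_inter] at hv
      rw [← he v hv.2]; exact hY0 v hv.1)
    rw [mem_inter] at hu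
    refine ⟨u, hu.1, ?_⟩
    rw [he u hu.2]
    refine hu'.trans (dg_mono m u fun z hz => ?_)
    simp only [mem_sdiff, mem_inter, not_and] at hz ⊢
    exact ⟨hs hz.1, fun a => hz.2 a hz.1⟩
  · obtain ⟨u, hu⟩ := hY
    have hn : ∀ z ∈ Y, z ∉ S r h := fun z a b => hZ ⟨z, mem_inter.2 ⟨a, b⟩⟩
    refine ⟨u, hu, (hl u (hn u hu)).trans (dg_mono m u fun z hz => ?_)⟩
    exact mem_sdiff.2 ⟨hs hz, fun a => hn z a hz⟩

/-- fibre of the burning map over a parking configuration -/
def Fib (X : Finset V) (h : V → ℕ) : Finset (V → ℕ) :=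
  Fintype.piFinset fun v => if v ∈ S r h then {h v} else
    if v ∈ X then Icc (dg m v (S r h) + 1) (N m + 1) else {0}

def All (X : Finset V) : Finset (V → ℕ) :=
  Fintype.piFinset fun v => if v ∈ X.erase r then Icc 1 (N m + 1) else {0}

lemma mem_Fib {X : Finset V} {h g : V → ℕ} : g ∈ Fib m r X h ↔
    (∀ v ∈ S r h, g v = h v) ∧ (∀ v ∉ S r h, v ∈ X → dg m v (S r h) < g v ∧ g v ≤ N m + 1) ∧
      ∀ v ∉ S r h, v ∉ X → g v = 0 := by
  unfold Fib
  rw [Fintype.mem_piFinset]
  constructor
  · intro a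
    refine ⟨fun v hv => ?_, fun v hv hx => ?_, fun v hv hx => ?_⟩
    · simpa [hv] using a v
    · have := a v
      simp only [hv, hx, if_true, if_false, mem_Icc] at this
      omega
    · simpa [hv, hx] using a v
  · rintro ⟨a, b, c⟩ v
    by_cases hv : v ∈ S r h
    · simp [hv, a v hv]
    · by_cases hx : v ∈ X
      · have := b v hv hx
        simp only [hv, hx, if_true, if_false, mem_Icc]
        omega
      · simp [hv, hx, c v hv hx]

lemma mem_All {X : Finset V} {g : V → ℕ} : g ∈ All m r X ↔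
    (∀ v ∈ X.erase r, 1 ≤ g v ∧ g v ≤ N m + 1) ∧ ∀ v ∉ X.erase r, g v = 0 := by
  unfold All
  rw [Fintype.mem_piFinset]
  constructor
  · intro a
    refine ⟨fun v hv => ?_, fun v hv => ?_⟩
    · have := a v
      rwa [if_pos hv, mem_Icc] at this
    · have := a v
      rwa [if_neg hv, mem_singleton] at this
  · rintro ⟨a, b⟩ v
    by_cases hv : v ∈ X.erase r
    · rw [if_pos hv, mem_Icc]; exact a v hv
    · rw [if_neg hv, mem_singleton]; exact b v hv

lemma Fib_sub {X : Finset V} {h : V → ℕ} (hp : Park m r h) (hX : S r h ⊆ X) :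
    Fib m r X h ⊆ All m r X := by
  intro g hg
  rw [mem_Fib] at hg
  rw [mem_All]
  obtain ⟨a, b, c⟩ := hg
  constructor
  · intro v hv
    rw [mem_erase] at hv
    by_cases hs : v ∈ S r h
    · have h1 := a v hs
      have h2 := (hp.le m r v).trans (dg_le_N m v _)
      rcases (mem_S r).1 hs with e | e
      · exact absurd e hv.1
      · omega
    · have := b v hs hv.2
      omega
  · intro v hv
    by_cases hs : v ∈ S r h
    · have : v = r := by
        by_contra hne
        exact hv (mem_erase.2 ⟨hne, hX hs⟩)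
      rw [a v hs, this, hp.1]
    · exact c v hs fun hx => hv (mem_erase.2 ⟨fun e => hs (e ▸ r_mem r h), hx⟩)

lemma Fib_sub' {X : Finset V} {h h' g : V → ℕ} (hp : Park m r h) (hX : S r h ⊆ X)
    (hg : g ∈ Fib m r X h) (hg' : g ∈ Fib m r X h') : S r h ⊆ S r h' := by
  rw [mem_Fib] at hg hg'
  by_contra hn
  have hne : (S r h \ S r h').Nonempty := by rwa [sdiff_nonempty]
  obtain ⟨v, hv, hv'⟩ := hp.2 _ hne (fun v hv => by
    rw [mem_sdiff] at hv
    rcases (mem_S r).1 hv.1 with e | e
    · exact absurd (e ▸ r_mem r h') hv.2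
    · exact e)
  rw [mem_sdiff] at hv
  have h1 := hg.1 v hv.1
  have h2 := (hg'.2.1 v hv.2 (hX hv.1)).1
  have h3 : dg m v (S r h \ (S r h \ S r h')) ≤ dg m v (S r h') :=
    dg_mono m v fun z hz => by
      simp only [mem_sdiff, not_and, not_not] at hz
      exact hz.2 hz.1
  omega

lemma Fib_uniq {X : Finset V} {h h' g : V → ℕ} (hp : Park m r h) (hX : S r h ⊆ X)
    (hp' : Park m r h') (hX' : S r h' ⊆ X)
    (hg : g ∈ Fib m r X h) (hg' : g ∈ Fib m r X h') : h = h' := by
  have e : S r h = S r h' :=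
    Subset.antisymm (Fib_sub' m r hp hX hg hg') (Fib_sub' m r hp' hX' hg' hg)
  rw [mem_Fib] at hg hg'
  funext v
  by_cases hv : v ∈ S r h
  · rw [← hg.1 v hv, hg'.1 v (e ▸ hv)]
  · have hv' : v ∉ S r h' := e ▸ hv
    rw [mem_S] at hv hv'
    push Not at hv hv'
    rw [hv.2, hv'.2]

lemma Fib_ex {X : Finset V} (hr : r ∈ X) {g : V → ℕ} (hg : g ∈ All m r X) :
    ∃ h, Park m r h ∧ S r h ⊆ X ∧ g ∈ Fib m r X h := by
  classical
  rw [mem_All] at hg
  have hgr : g r = 0 := hg.2 r (by simp)
  obtain ⟨h, hh, hmax⟩ := exists_max_image ((Cfg m r).filter fun h => ∀ v ∈ S r h, g v = h v)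
    (fun h => (S r h).card) ⟨fun _ => 0, by
      rw [mem_filter, mem_Cfg]
      refine ⟨⟨rfl, fun Y ⟨y, hy⟩ h0 => absurd rfl (h0 y hy)⟩, fun v hv => ?_⟩
      rcases (mem_S r).1 hv with e | e
      · rw [e, hgr]
      · exact absurd rfl e⟩
  rw [mem_filter, mem_Cfg] at hh
  refine ⟨h, hh.1, fun v hv => ?_, ?_⟩
  · rcases (mem_S r).1 hv with e | e
    · exact e ▸ hr
    · by_contra hx
      have h1 := hg.2 v (fun a => hx (mem_of_mem_erase a))
      have h2 := hh.2 v hv
      omega
  · rw [mem_Fib]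
    refine ⟨hh.2, fun v hv hx => ?_, fun v _ hx => hg.2 v fun a => hx (mem_of_mem_erase a)⟩
    have hvr : v ≠ r := fun e => hv (e ▸ r_mem r h)
    have h1 := hg.1 v (mem_erase.2 ⟨hvr, hx⟩)
    refine ⟨?_, h1.2⟩
    by_contra hle
    have he : ∀ u ∈ S r h, Function.update h v (g v) u = h u := fun u hu =>
      Function.update_of_ne (fun e : u = v => hv (e ▸ hu)) _ _
    have hp : Park m r (Function.update h v (g v)) := by
      refine hh.1.ext m r he fun u hu => ?_
      by_cases e : u = v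
      · subst e; simp only [Function.update_self]; omega
      · rw [Function.update_of_ne e]
        have := (not_or.1 fun a => hu ((mem_S r).2 a)).2
        omega
    have := hmax (Function.update h v (g v)) (by
      rw [mem_filter, mem_Cfg]
      refine ⟨hp, fun u hu => ?_⟩
      by_cases e : u = v
      · subst e; simp
      · rw [Function.update_of_ne e]
        rw [mem_S, Function.update_of_ne e, ← mem_S] at hu
        exact hh.2 u hu)
    have hlt : S r h ⊂ S r (Function.update h v (g v)) := by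
      refine ⟨S_sub r he, fun a => hv (a ?_)⟩
      rw [mem_S]; right; simp only [Function.update_self]; omega
    exact absurd (card_lt_card hlt) (not_lt.2 this)

variable {K : Type*} [Field K] (q : K)

def wt (n j : ℕ) : K := if j = 0 then 1 else if j ≤ n then q ^ (j - 1) * (1 - q) else q ^ n

lemma wt_sum (n : ℕ) : ∀ k d, d + k = n → ∑ j ∈ Icc (d + 1) (n + 1), wt q n j = q ^ d := by
  intro k
  induction k with
  | zero =>
    intro d hd
    obtain rfl : d = n := by omega
    simp [wt]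
  | succ k ih =>
    intro d hd
    rw [← insert_Icc_add_one_left_eq_Icc (by omega), sum_insert (by simp), ih (d + 1) (by omega)]
    have : d + 1 ≤ n := by omega
    simp only [wt, this, if_true, Nat.add_sub_cancel, Nat.succ_ne_zero, if_false]
    ring

open Classical in
lemma dhar {X : Finset V} (hr : r ∈ X) :
    ∑ h ∈ (Cfg m r).filter (fun h => S r h ⊆ X),
      (∏ v ∈ (S r h).erase r, q ^ (h v - 1) * (1 - q)) * q ^ cut m X (S r h) = 1 := by
  have h1 : ∑ g ∈ All m r X, ∏ v, wt q (N m) (g v) = 1 := by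
    unfold All
    rw [← prod_univ_sum]
    refine prod_eq_one fun v _ => ?_
    split_ifs
    · simpa using wt_sum q (N m) (N m) 0 (by simp)
    · simp [wt]
  have h2 : All m r X = ((Cfg m r).filter (fun h => S r h ⊆ X)).biUnion (Fib m r X) := by
    ext g
    simp only [mem_biUnion, mem_filter, mem_Cfg]
    constructor
    · intro hg
      obtain ⟨h, a, b, c⟩ := Fib_ex m r hr hg
      exact ⟨h, ⟨a, b⟩, c⟩
    · rintro ⟨h, ⟨a, b⟩, c⟩
      exact Fib_sub m r a b c
  rw [h2, sum_biUnion] at h1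
  · refine Eq.trans ?_ h1
    refine sum_congr rfl fun h hh => ?_
    rw [mem_filter, mem_Cfg] at hh
    unfold Fib
    rw [← prod_univ_sum, cut, ← prod_pow_eq_pow_sum]
    symm
    rw [← prod_subset (subset_univ ((S r h).erase r ∪ X \ S r h))]
    · rw [prod_union (disjoint_of_subset_left (erase_subset _ _) disjoint_sdiff)]
      congr 1
      · refine prod_congr rfl fun v hv => ?_
        rw [mem_erase] at hv
        have a := (hh.1.le m r v).trans (dg_le_N m v _)
        have b : h v ≠ 0 := ((mem_S r).1 hv.2).resolve_left hv.1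
        simp [hv.2, wt, a, b]
      · refine prod_congr rfl fun v hv => ?_
        rw [mem_sdiff] at hv
        simp only [hv.1, hv.2, if_true, if_false]
        have := dg_le_N m v (S r h)
        exact wt_sum q (N m) (N m - dg m v (S r h)) _ (by omega)
    · intro v _ hv
      simp only [mem_union, mem_erase, mem_sdiff, not_or, not_and, not_not] at hv
      by_cases hs : v ∈ S r h
      · have : v = r := by
          by_contra hne
          exact hv.1 hne hs
        subst this
        simp [hs, hh.1.1, wt]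
      · have : v ∉ X := fun a => hs (hv.2 a)
        simp [hs, this, wt]
  · intro h hh h' hh' hne
    simp only [coe_filter, mem_Cfg, Set.mem_ofPred_eq] at hh hh'
    rw [Function.onFun, disjoint_left]
    intro g a b
    exact hne (Fib_uniq m r hh.1 hh.2 hh'.1 hh'.2 a b)

end Pool.Agent.H.MP_4c49f5_co
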