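import Pool.Agent.H.MP_4c49f5_co.A

namespace Pool.Agent.H.MP_4c49f5_co

open Finset

variable {V : Type*} [Fintype V] [DecidableEq V] {m : V → V → ℕ} {r : V} {R : Finset V}

structure Hyp (m : V → V → ℕ) (r : V) (R : Finset V) : Prop where
  symm : ∀ u v, m u v = m v u
  root : r ∈ R
  cl : ∀ u ∈ R, ∀ v, m u v ≠ 0 → v ∈ R
  pos : ∀ v ∈ R, v ≠ r → 1 ≤ D m v

def Lf (m : V → V → ℕ) (r : V) : Finset V :=
  univ.filter fun v => v ≠ r ∧ D m v = 1 ∧ m v r = 1

def uu (r : V) (R : Finset V) (h : V → ℕ) : ℕ := (R \ S r h).card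

lemma S_sub_R (H : Hyp m r R) {h : V → ℕ} (hp : Park m r h) : S r h ⊆ R := by
  by_contra hn
  have hne : (S r h \ R).Nonempty := by rwa [sdiff_nonempty]
  have h0 : ∀ v ∈ S r h \ R, h v ≠ 0 := fun v hv => by
    rw [mem_sdiff] at hv
    rcases (mem_S r).1 hv.1 with e | e
    · exact absurd (e ▸ H.root) hv.2
    · exact e
  obtain ⟨v, hv, hv'⟩ := hp.2 _ hne h0
  have h1 := h0 v hv
  have : dg m v (S r h \ (S r h \ R)) = 0 := by
    refine sum_eq_zero fun z hz => ?_
    simp only [mem_sdiff, not_and, not_not] at hz hv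
    by_contra a
    exact hv.2 (H.cl z (hz.2 hz.1) v (by rwa [H.symm]))
  omega

lemma D_eq {v : V} {Z : Finset V} (hv : v ∉ Z) :
    D m v = dg m v Z + dg m v (univ \ insert v Z) := by
  unfold D dg
  rw [← sum_union]
  · refine sum_congr ?_ fun _ _ => rfl
    ext z
    simp only [mem_erase, mem_univ, and_true, mem_union, mem_sdiff, mem_insert, not_or, true_and]
    by_cases hz : z ∈ Z
    · simp only [hz, true_or, iff_true]; exact fun e => hv (e ▸ hz)
    · simp [hz]
  · exact disjoint_of_subset_left (subset_insert v Z) disjoint_sdiff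

lemma nb0 {y z : V} {Z : Finset V} (h : dg m y Z = D m y) (hy : y ∉ Z) (hz : z ∉ Z)
    (hne : z ≠ y) : m y z = 0 := by
  have h1 := D_eq (m := m) hy
  have h2 : m y z ≤ dg m y (univ \ insert y Z) :=
    single_le_sum (f := fun z => m y z) (fun _ _ => Nat.zero_le _) (by simp [hz, hne])
  omega

omit [Fintype V] in
lemma dg_ins {u v : V} {Z : Finset V} (hv : v ∉ Z) : dg m u (insert v Z) = m u v + dg m u Z :=
  sum_insert hv

lemma cut_ins (hs : ∀ u v, m u v = m v u) {v : V} {Z : Finset V} (hv : v ∉ Z) :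
    cut m univ (insert v Z) + 2 * dg m v Z = cut m univ Z + D m v := by
  have e : univ \ Z = insert v (univ \ insert v Z) := by
    ext z
    by_cases a : z = v
    · simp [a, hv]
    · simp [a]
  have h1 : cut m univ Z = dg m v Z + ∑ u ∈ univ \ insert v Z, dg m u Z := by
    rw [cut, e, sum_insert (by simp)]
  have h2 : cut m univ (insert v Z) =
      dg m v (univ \ insert v Z) + ∑ u ∈ univ \ insert v Z, dg m u Z := by
    rw [cut, dg, ← sum_add_distrib]
    exact sum_congr rfl fun u _ => by rw [dg_ins hv, hs]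
  have h3 := D_eq (m := m) hv
  omega

lemma add_spec (H : Hyp m r R) {h : V → ℕ} (hp : Park m r h) {v : V} (hv : v ∉ S r h)
    (hR : v ∈ R) {k : ℕ} (h1 : 1 ≤ k) (h2 : k ≤ dg m v (S r h)) :
    Park m r (Function.update h v k) ∧ S r (Function.update h v k) = insert v (S r h) ∧
      w m r (Function.update h v k) + 2 * dg m v (S r h) = w m r h + k + D m v ∧
      uu r R h = uu r R (Function.update h v k) + 1 := by
  have hv0 : h v = 0 := by
    by_contra a
    exact hv ((mem_S r).2 (Or.inr a))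
  have hS : S r (Function.update h v k) = insert v (S r h) := by
    ext z
    by_cases e : z = v
    · subst e
      simp only [mem_S, Function.update_self, mem_insert, true_or, iff_true]
      right; omega
    · simp [mem_S, Function.update_of_ne e, e]
  refine ⟨?_, hS, ?_, ?_⟩
  · refine hp.ext m r (fun u hu => Function.update_of_ne (fun e : u = v => hv (e ▸ hu)) _ _)
      fun u hu => ?_
    by_cases e : u = v
    · subst e; simpa using h2
    · rw [Function.update_of_ne e]
      have := (not_or.1 fun a => hu ((mem_S r).2 a)).2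
      omega
  · have a := cut_ins H.symm hv
    have b : ∑ u, Function.update h v k u = k + ∑ u, h u := by
      rw [sum_update_of_mem (mem_univ v), ← add_sum_erase univ h (mem_univ v), hv0,
        sdiff_singleton_eq_erase, zero_add]
    rw [w, w, hS, b]
    omega
  · rw [uu, uu, hS, sdiff_insert, card_erase_add_one (mem_sdiff.2 ⟨hR, hv⟩)]

def Tg (m : V → V → ℕ) (r : V) (h : V → ℕ) (v : V) : Prop :=
  h v = D m v ∨ (h v = 0 ∧ dg m v (S r h) = D m v)

def tog (m : V → V → ℕ) (h : V → ℕ) (v : V) : V → ℕ :=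
  Function.update h v (if h v = 0 then D m v else 0)

lemma down {h : V → ℕ} (hs : ∀ u v, m u v = m v u) (hp : Park m r h) {v : V} (hv : v ≠ r)
    (h1 : h v = D m v) :
    Park m r (Function.update h v 0) ∧ v ∉ S r (Function.update h v 0) ∧
      dg m v (S r (Function.update h v 0)) = D m v := by
  have hS : S r (Function.update h v 0) = S r h \ {v} := by
    ext z
    by_cases e : z = v
    · subst e; simp [mem_S, hv]
    · simp [mem_S, Function.update_of_ne e, e]
  refine ⟨⟨?_, fun Y hY hY0 => ?_⟩, by simp [hS], ?_⟩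
  · rw [Function.update_of_ne hv.symm, hp.1]
  · have hvY : v ∉ Y := fun a => hY0 v a (by simp)
    have hY1 : ∀ z ∈ Y, h z ≠ 0 := fun z hz => by
      have := hY0 z hz
      rwa [Function.update_of_ne (fun e : z = v => hvY (e ▸ hz))] at this
    have hup : ∀ z ∈ Y, Function.update h v 0 z = h z := fun z hz =>
      Function.update_of_ne (fun e : z = v => hvY (e ▸ hz)) _ _
    have e2 : S r h \ insert v Y = (S r h \ {v}) \ Y := by
      ext z; simp only [mem_sdiff, mem_insert, mem_singleton, not_or]; tauto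
    by_cases h0 : h v = 0
    · obtain ⟨u, hu, hu'⟩ := hp.2 Y hY hY1
      refine ⟨u, hu, ?_⟩
      rw [hup u hu, hS]
      refine hu'.trans (dg_mono m u fun z hz => ?_)
      simp only [mem_sdiff, mem_singleton] at hz ⊢
      refine ⟨⟨hz.1, ?_⟩, hz.2⟩
      rintro rfl
      rcases (mem_S r).1 hz.1 with a | a
      · exact hv a
      · exact a h0
    obtain ⟨u, hu, hu'⟩ := hp.2 (insert v Y) (insert_nonempty _ _) (fun z hz => by
      rcases mem_insert.1 hz with a | a
      · exact a ▸ h0
      · exact hY1 z a)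
    rcases mem_insert.1 hu with a | a
    · subst a
      obtain ⟨z, hz, hz'⟩ := hp.2 Y hY hY1
      refine ⟨z, hz, ?_⟩
      have hne : z ≠ u := fun e => hvY (e ▸ hz)
      have a1 : dg m u (S r h \ insert u Y) = D m u :=
        le_antisymm (dg_le_D m (by simp)) (h1 ▸ hu')
      have a2 : m u z = 0 := nb0 a1 (by simp) (by simp [hz]) hne
      have a3 : S r h \ Y = insert u (S r h \ insert u Y) := by
        ext t
        by_cases e : t = u
        · subst e
          simp only [mem_sdiff, mem_insert, true_or, iff_true]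
          exact ⟨(mem_S r).2 (Or.inr h0), hvY⟩
        · simp [e]
      rw [a3, dg_ins (by simp), hs, a2, zero_add, e2] at hz'
      rw [hup z hz, hS]
      exact hz'
    · exact ⟨u, a, by rw [hup u a, hS, ← e2]; exact hu'⟩
  · rw [hS]
    exact le_antisymm (dg_le_D m (by simp)) (h1 ▸ hp.le m r v)

lemma up_inv (H : Hyp m r R) {h : V → ℕ} (hp : Park m r h) {v : V} (hv : v ∉ S r h)
    (hR : v ∈ R) (hd : dg m v (S r h) = D m v) {k : ℕ} (h1 : 1 ≤ k) (h2 : k ≤ D m v)
    {z : V} (hz : z ≠ r) (hzv : z ≠ v) :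
    Tg m r (Function.update h v k) z ↔ Tg m r h z := by
  have hS := (add_spec H hp hv hR h1 (hd ▸ h2)).2.1
  unfold Tg
  rw [Function.update_of_ne hzv, hS, dg_ins hv]
  by_cases h0 : h z = 0
  · have : z ∉ S r h := fun a => ((mem_S r).1 a).elim hz fun b => b h0
    rw [H.symm, nb0 hd hv this hzv, zero_add]
  · simp [h0]

lemma tog_spec (H : Hyp m r R) {h : V → ℕ} (hp : Park m r h) {v : V} (hv : v ≠ r) (hR : v ∈ R)
    (hT : Tg m r h v) :
    Park m r (tog m h v) ∧ w m r (tog m h v) = w m r h ∧ Tg m r (tog m h v) v ∧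
      tog m (tog m h v) v = h ∧ (∀ z, z ≠ r → z ≠ v → (Tg m r (tog m h v) z ↔ Tg m r h z)) ∧
      (h v = 0 → uu r R h = uu r R (tog m h v) + 1 ∧ tog m h v v ≠ 0) ∧
      (h v ≠ 0 → uu r R (tog m h v) = uu r R h + 1 ∧ tog m h v v = 0) := by
  have hD := H.pos v hR hv
  by_cases h0 : h v = 0
  · have hd : dg m v (S r h) = D m v := by
      rcases hT with a | a
      · omega
      · exact a.2
    have hn : v ∉ S r h := fun a => ((mem_S r).1 a).elim hv fun b => b h0
    have e : tog m h v = Function.update h v (D m v) := by simp [tog, h0]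
    obtain ⟨a, b, c, d⟩ := add_spec H hp hn hR hD hd.ge
    rw [e]
    refine ⟨a, by omega, Or.inl (by simp), ?_, fun z hz hz' => up_inv H hp hn hR hd hD le_rfl hz hz',
      fun _ => ⟨d, by simp; omega⟩, fun a => absurd h0 a⟩
    have : D m v ≠ 0 := by omega
    simp [tog, this, ← h0]
  · have h1 : h v = D m v := hT.resolve_right fun a => h0 a.1
    have e : tog m h v = Function.update h v 0 := by simp [tog, h0]
    obtain ⟨a, b, c⟩ := down H.symm hp hv h1
    have e2 : Function.update (Function.update h v 0) v (D m v) = h := by simp [← h1]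
    obtain ⟨_, _, c', d'⟩ := add_spec H a b hR hD c.ge
    rw [e2] at c' d'
    rw [e]
    refine ⟨a, by omega, Or.inr ⟨by simp, c⟩, ?_, fun z hz hz' => ?_, fun a => absurd a h0,
      fun _ => ⟨d', by simp⟩⟩
    · simp [tog, ← h1]
    · have := up_inv H a b hR c hD le_rfl hz hz'
      rw [e2] at this
      exact this.symm

lemma tog_ne {h : V → ℕ} {v z : V} (hz : z ≠ v) : tog m h v z = h z :=
  Function.update_of_ne hz _ _

lemma Lf_spec (H : Hyp m r R) {h : V → ℕ} (hp : Park m r h) {l : V} (hl : l ∈ Lf m r) :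
    l ≠ r ∧ l ∈ R ∧ Tg m r h l := by
  simp only [Lf, mem_filter, mem_univ, true_and] at hl
  refine ⟨hl.1, H.cl r H.root l (by rw [H.symm]; omega), ?_⟩
  have a := hp.le_D m r l
  by_cases h0 : h l = 0
  · have hn : l ∉ S r h := fun a => ((mem_S r).1 a).elim hl.1 fun b => b h0
    have b := dg_le_D m hn
    have c : m l r ≤ dg m l (S r h) :=
      single_le_sum (f := fun z => m l z) (fun _ _ => Nat.zero_le _) (r_mem r h)
    exact Or.inr ⟨h0, by omega⟩
  · exact Or.inl (by omega)

open Classical in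
noncomputable def FJ (m : V → V → ℕ) (r : V) (R : Finset V) {A : Type*} [CommRing A] (x q : A)
    (J : Finset V) : A :=
  ∑ h ∈ (Cfg m r).filter (fun h => ∀ l ∈ J, h l ≠ 0), (x - 1) ^ uu r R h * q ^ w m r h

lemma FJ_step (H : Hyp m r R) {A : Type*} [CommRing A] (x q : A) {J : Finset V} {l : V}
    (hl : l ∈ Lf m r) (hJ : l ∉ J) : FJ m r R x q J = x * FJ m r R x q (insert l J) := by
  classical
  have e1 : ((Cfg m r).filter (fun h => ∀ l ∈ J, h l ≠ 0)).filter (fun h => h l ≠ 0) =
      (Cfg m r).filter (fun h => ∀ l' ∈ insert l J, h l' ≠ 0) := by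
    ext h; simp only [mem_filter, forall_mem_insert]; tauto
  have e2 : ∑ h ∈ ((Cfg m r).filter (fun h => ∀ l ∈ J, h l ≠ 0)).filter (fun h => ¬ h l ≠ 0),
      (x - 1) ^ uu r R h * q ^ w m r h = (x - 1) * FJ m r R x q (insert l J) := by
    rw [FJ, mul_sum]
    refine sum_nbij' (fun h => tog m h l) (fun h => tog m h l) ?_ ?_ ?_ ?_ ?_
    · intro h hh
      simp only [mem_filter, mem_Cfg, not_not, forall_mem_insert] at hh ⊢
      obtain ⟨a, b, c⟩ := Lf_spec H hh.1.1 hl
      obtain ⟨p1, -, -, -, -, p6, -⟩ := tog_spec H hh.1.1 a b c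
      refine ⟨p1, (p6 hh.2).2, fun z hz => ?_⟩
      rw [tog_ne (fun e : z = l => hJ (e ▸ hz))]; exact hh.1.2 z hz
    · intro h hh
      simp only [mem_filter, mem_Cfg, not_not, forall_mem_insert] at hh ⊢
      obtain ⟨a, b, c⟩ := Lf_spec H hh.1 hl
      obtain ⟨p1, -, -, -, -, -, p7⟩ := tog_spec H hh.1 a b c
      refine ⟨⟨p1, fun z hz => ?_⟩, (p7 hh.2.1).2⟩
      rw [tog_ne (fun e : z = l => hJ (e ▸ hz))]; exact hh.2.2 z hz
    · intro h hh
      simp only [mem_filter, mem_Cfg] at hh
      obtain ⟨a, b, c⟩ := Lf_spec H hh.1.1 hl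
      exact (tog_spec H hh.1.1 a b c).2.2.2.1
    · intro h hh
      simp only [mem_filter, mem_Cfg] at hh
      obtain ⟨a, b, c⟩ := Lf_spec H hh.1 hl
      exact (tog_spec H hh.1 a b c).2.2.2.1
    · intro h hh
      simp only [mem_filter, mem_Cfg, not_not] at hh
      obtain ⟨a, b, c⟩ := Lf_spec H hh.1.1 hl
      obtain ⟨-, p2, -, -, -, p6, -⟩ := tog_spec H hh.1.1 a b c
      rw [p2, (p6 hh.2).1]; ring
  rw [FJ, ← sum_filter_add_sum_filter_not _ (fun h => h l ≠ 0), e1, e2, ← FJ]
  ring

lemma FJ_all (H : Hyp m r R) {A : Type*} [CommRing A] (x q : A) :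
    ∀ J ⊆ Lf m r, FJ m r R x q ∅ = x ^ J.card * FJ m r R x q J := by
  intro J
  induction J using Finset.induction_on with
  | empty => simp
  | insert l J hl ih =>
    intro hJ
    rw [ih ((subset_insert _ _).trans hJ), FJ_step H x q (hJ (mem_insert_self _ _)) hl,
      card_insert_of_notMem hl]
    ring

end Pool.Agent.H.MP_4c49f5_co
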