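import Pool.Agent.H.MP_4c49f5_co.B

namespace Pool.Agent.H.MP_4c49f5_co

open Finset

variable {V : Type*} [Fintype V] [DecidableEq V] {m : V → V → ℕ} {r : V} {R : Finset V}

def Iso (m : V → V → ℕ) (R Z : Finset V) : Finset V := (R \ Z).filter fun y => dg m y Z = D m y

structure Good (m : V → V → ℕ) (r : V) (h : V → ℕ) : Prop where
  park : Park m r h
  lf : ∀ l ∈ Lf m r, h l ≠ 0
  nomax : ∀ v, v ∉ Lf m r → h v ≠ 0 → h v < D m v

def Sv (m : V → V → ℕ) (r : V) (R : Finset V) (h : V → ℕ) : Prop :=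
  Good m r h ∧ Iso m R (S r h) = ∅

lemma mem_Iso {Z : Finset V} {y : V} : y ∈ Iso m R Z ↔ y ∈ R ∧ y ∉ Z ∧ dg m y Z = D m y := by
  simp [Iso, and_assoc]

lemma Good.add (H : Hyp m r R) {h : V → ℕ} (hg : Good m r h) {v : V} (hv : v ∉ S r h)
    (hR : v ∈ R) {k : ℕ} (h1 : 1 ≤ k) (h2 : k ≤ dg m v (S r h)) (h3 : k < D m v) :
    Good m r (Function.update h v k) := by
  refine ⟨(add_spec H hg.park hv hR h1 h2).1, fun l hl => ?_, fun u hu hu' => ?_⟩
  · by_cases e : l = v
    · subst e; simp; omega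
    · rw [Function.update_of_ne e]; exact hg.lf l hl
  · by_cases e : u = v
    · subst e; simpa using h3
    · rw [Function.update_of_ne e] at hu' ⊢; exact hg.nomax u hu hu'

lemma fix (H : Hyp m r R) : ∀ (n : ℕ) (h : V → ℕ), (Iso m R (S r h)).card = n → Good m r h →
    (∀ y ∈ Iso m R (S r h), 2 ≤ D m y) →
    ∃ h', Sv m r R h' ∧ w m r h' + n = w m r h ∧ uu r R h = uu r R h' + n := by
  intro n
  induction n with
  | zero => exact fun h hc hg _ => ⟨h, ⟨hg, card_eq_zero.1 hc⟩, rfl, rfl⟩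
  | succ n ih =>
    intro h hc hg h2
    obtain ⟨y, hy⟩ : (Iso m R (S r h)).Nonempty := card_pos.1 (by omega)
    have h3 := h2 y hy
    obtain ⟨a, b, c⟩ := mem_Iso.1 hy
    obtain ⟨-, p2, p3, p4⟩ := add_spec H hg.park b a (k := D m y - 1) (by omega) (by omega)
    have e : Iso m R (S r (Function.update h y (D m y - 1))) = (Iso m R (S r h)).erase y := by
      ext z
      rw [p2, mem_erase, mem_Iso, mem_Iso, mem_insert, dg_ins b]
      by_cases h1 : z = y
      · simp [h1]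
      · by_cases h4 : z ∈ S r h
        · simp [h4]
        · rw [H.symm, nb0 c b h4 h1]; simp [h1]
    obtain ⟨h', q1, q2, q3⟩ := ih (Function.update h y (D m y - 1))
      (by rw [e, card_erase_of_mem hy]; omega)
      (hg.add H b a (by omega) (by omega) (by omega))
      (fun z hz => h2 z (mem_of_mem_erase (e ▸ hz)))
    exact ⟨h', q1, by omega, by omega⟩

lemma Iso_pos {h : V → ℕ} (hs : Sv m r R h) {x y : V} (hx : x ∉ S r h)
    (hy : y ∈ Iso m R (insert x (S r h))) : 1 ≤ m y x ∧ y ≠ x ∧ y ∉ S r h := by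
  obtain ⟨a, b, c⟩ := mem_Iso.1 hy
  rw [mem_insert, not_or] at b
  refine ⟨?_, b⟩
  rw [dg_ins hx] at c
  by_contra h0
  have : y ∈ Iso m R (S r h) := mem_Iso.2 ⟨a, b.2, by omega⟩
  rw [hs.2] at this
  simp at this

lemma op (H : Hyp m r R) {h : V → ℕ} (hs : Sv m r R h) {x : V} (hR : x ∈ R) (hx : x ∉ S r h)
    (h1 : 1 ≤ dg m x (S r h)) (h2 : ∀ y ∈ Iso m R (insert x (S r h)), 2 ≤ D m y) :
    dg m x (S r h) < D m x ∧ ∃ h', Sv m r R h' ∧
      w m r h' + (Iso m R (insert x (S r h))).card + dg m x (S r h) = w m r h + D m x ∧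
      uu r R h = uu r R h' + (Iso m R (insert x (S r h))).card + 1 := by
  have hlt : dg m x (S r h) < D m x := by
    refine lt_of_le_of_ne (dg_le_D m hx) fun e => ?_
    have : x ∈ Iso m R (S r h) := mem_Iso.2 ⟨hR, hx, e⟩
    rw [hs.2] at this
    simp at this
  obtain ⟨-, p2, p3, p4⟩ := add_spec H hs.1.park hx hR h1 le_rfl
  obtain ⟨h', q1, q2, q3⟩ := fix H _ _ rfl (hs.1.add H hx hR h1 le_rfl hlt) (p2 ▸ h2)
  rw [p2] at q2 q3
  exact ⟨hlt, h', q1, by omega, by omega⟩

def Term (m : V → V → ℕ) (r : V) (R : Finset V) (h : V → ℕ) : Prop :=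
  ∀ x ∈ R, x ∉ S r h → 1 ≤ dg m x (S r h) → ∃ y ∈ Iso m R (insert x (S r h)), D m y < 2

lemma parity (H : Hyp m r R) : ∀ (n : ℕ) (h : V → ℕ), uu r R h = n → Sv m r R h →
    (∀ h', Sv m r R h' → w m r h' ≤ w m r h) →
    ∃ h', Sv m r R h' ∧ Term m r R h' ∧ uu r R h % 2 = uu r R h' % 2 := by
  intro n
  induction n using Nat.strong_induction_on with
  | _ n ih =>
    intro h hn hs hmax
    by_cases hT : Term m r R h
    · exact ⟨h, hs, hT, rfl⟩
    unfold Term at hT
    push Not at hT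
    obtain ⟨x, hR, hx, h1, h2⟩ := hT
    obtain ⟨hlt, h', q1, q2, q3⟩ := op H hs hR hx h1 h2
    set Y := Iso m R (insert x (S r h)) with hY
    have a1 := D_eq (m := m) hx
    have a2 : ∑ y ∈ Y, m x y ≤ dg m x (univ \ insert x (S r h)) :=
      dg_mono m x fun y hy => mem_sdiff.2 ⟨mem_univ _, (mem_Iso.1 hy).2.1⟩
    have a3 : ∀ y ∈ Y, 1 ≤ m x y := fun y hy => by rw [H.symm]; exact (Iso_pos hs hx hy).1
    have a4 : Y.card ≤ ∑ y ∈ Y, m x y := by
      simpa using card_nsmul_le_sum Y (fun y => m x y) 1 a3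
    have a5 := hmax h' q1
    by_cases hc : Y.card ≤ 1
    · obtain ⟨h'', b1, b2, b3⟩ := ih (uu r R h') (by omega) h' rfl q1
        (fun g hg => (hmax g hg).trans (by omega))
      exact ⟨h'', b1, b2, by omega⟩
    exfalso
    obtain ⟨y, hy, y', hy', hne⟩ := one_lt_card.1 (not_le.1 hc)
    have b1 : m x y = 1 := by
      have c1 : (Y.erase y).card ≤ ∑ z ∈ Y.erase y, m x z := by
        simpa using card_nsmul_le_sum (Y.erase y) (fun y => m x y) 1
          fun z hz => a3 z (mem_of_mem_erase hz)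
      have c2 := add_sum_erase Y (fun y => m x y) hy
      have c3 := card_erase_add_one hy
      have c4 := a3 y hy
      omega
    obtain ⟨c1, c2, c3⟩ := mem_Iso.1 hy
    obtain ⟨-, d2, d3⟩ := Iso_pos hs hx hy
    obtain ⟨-, d2', d3'⟩ := Iso_pos hs hx hy'
    have c4 := h2 y hy
    have c5 := c3
    rw [dg_ins hx, H.symm] at c5
    have e : Iso m R (insert y (S r h)) = ∅ := by
      refine eq_empty_of_forall_notMem fun z hz => ?_
      obtain ⟨e1, e2, e3⟩ := Iso_pos hs d3 hz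
      by_cases hzx : z = x
      · subst hzx
        obtain ⟨-, f2, f3⟩ := mem_Iso.1 hz
        have := nb0 (z := y') f3 f2 (by simp [hne.symm, d3']) d2'
        have := a3 y' hy'
        omega
      · have := nb0 (z := z) c3 c2 (by simp [hzx, e3]) e2
        rw [H.symm] at this
        omega
    obtain ⟨g1, g, g2, g3, -⟩ := op H hs c1 d3 (by omega) (by simp [e])
    have := hmax g g2
    rw [e, card_empty] at g3
    omega

lemma term_sub (H : Hyp m r R) {h g : V → ℕ} (hh : Sv m r R h) (hg : Sv m r R g)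
    (hT : Term m r R g) : S r h ⊆ S r g := by
  by_contra hn
  have hne : (S r h \ S r g).Nonempty := by rwa [sdiff_nonempty]
  have h0 : ∀ v ∈ S r h \ S r g, h v ≠ 0 := fun v hv => by
    rw [mem_sdiff] at hv
    rcases (mem_S r).1 hv.1 with e | e
    · exact absurd (e ▸ r_mem r g) hv.2
    · exact e
  obtain ⟨v, hv, hv'⟩ := hh.1.park.2 _ hne h0
  have h1 := h0 v hv
  rw [mem_sdiff] at hv
  have h3 : dg m v (S r h \ (S r h \ S r g)) ≤ dg m v (S r g) :=
    dg_mono m v fun z hz => by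
      simp only [mem_sdiff, not_and, not_not] at hz
      exact hz.2 hz.1
  obtain ⟨y, hy, hy'⟩ := hT v (S_sub_R H hh.1.park hv.1) hv.2 (by omega)
  obtain ⟨a1, a2, a3⟩ := Iso_pos hg hv.2 hy
  have a4 : y ∉ Lf m r := fun a => a3 ((mem_S r).2 (Or.inr (hg.1.lf y a)))
  by_cases hy0 : h y = 0
  · have hyr : y ≠ r := fun e => a3 (e ▸ r_mem r g)
    have b1 : y ∉ S r h := fun a => ((mem_S r).1 a).elim hyr fun b => b hy0
    have b2 := dg_le_D m b1
    have b3 : m y v ≤ dg m y (S r h) :=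
      single_le_sum (f := fun z => m y z) (fun _ _ => Nat.zero_le _) hv.1
    have : y ∈ Iso m R (S r h) := mem_Iso.2 ⟨(mem_Iso.1 hy).1, b1, by omega⟩
    rw [hh.2] at this
    simp at this
  · have := hh.1.nomax y a4 hy0
    omega

lemma sv_ex (H : Hyp m r R) : ∃ h, Sv m r R h := by
  have hz : Park m r (fun _ => 0) := ⟨rfl, fun Y ⟨y, hy⟩ h0 => absurd rfl (h0 y hy)⟩
  have hS0 : S r (fun _ : V => 0) = {r} := by ext z; simp [mem_S]
  have hrL : r ∉ Lf m r := by simp [Lf]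
  have hp : Park m r (fun v => if v ∈ Lf m r then 1 else 0) := by
    refine hz.ext m r (fun v hv => ?_) fun v _ => ?_
    · rw [hS0, mem_singleton] at hv
      simp [hv, hrL]
    · split_ifs with a
      · simp only [Lf, mem_filter] at a
        simp [hS0, dg, a.2.2.2]
      · omega
  have hg : Good m r (fun v => if v ∈ Lf m r then 1 else 0) :=
    ⟨hp, fun l hl => by simp [hl], fun v hv h0 => by simp [hv] at h0⟩
  obtain ⟨h', q, -⟩ := fix H _ _ rfl hg (fun y hy => by
    obtain ⟨a, b, c⟩ := mem_Iso.1 hy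
    have hyr : y ≠ r := fun e => b (e ▸ r_mem r _)
    have hyL : y ∉ Lf m r := fun e => b ((mem_S r).2 (Or.inr (by simp [e])))
    have h1 := H.pos y a hyr
    by_contra h2
    have h3 : dg m y (S r fun v => if v ∈ Lf m r then 1 else 0) = m y r := by
      refine sum_eq_single_of_mem r (r_mem r _) fun z hz hzr => ?_
      have hzL : z ∈ Lf m r := by
        by_contra e
        rcases (mem_S r).1 hz with f | f
        · exact hzr f
        · simp [e] at f
      have hzy : y ≠ z := fun e => hyL (e ▸ hzL)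
      simp only [Lf, mem_filter] at hzL
      rw [H.symm]
      refine nb0 (Z := {r}) ?_ (by simpa using hzr) (by simpa using hyr) hzy
      simp [dg, hzL.2.2.1, hzL.2.2.2]
    exact hyL (by simp only [Lf, mem_filter, mem_univ, true_and]; exact ⟨hyr, by omega, by omega⟩))
  exact ⟨h', q⟩

open Classical in
noncomputable def Tog (m : V → V → ℕ) (r : V) (R : Finset V) (h : V → ℕ) : Finset V :=
  (R.erase r \ Lf m r).filter (Tg m r h)

open Classical in
noncomputable def pick (r : V) (s : Finset V) : V := if hs : s.Nonempty then hs.choose else r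

omit [Fintype V] [DecidableEq V] in
lemma pick_mem {s : Finset V} (hs : s.Nonempty) : pick r s ∈ s := by
  rw [pick, dif_pos hs]; exact hs.choose_spec

lemma mem_Tog {h : V → ℕ} {v : V} :
    v ∈ Tog m r R h ↔ v ≠ r ∧ v ∈ R ∧ v ∉ Lf m r ∧ Tg m r h v := by
  simp [Tog, and_assoc]

lemma Tog_tog (H : Hyp m r R) {h : V → ℕ} (hp : Park m r h) {v : V} (hv : v ∈ Tog m r R h) :
    Tog m r R (tog m h v) = Tog m r R h := by
  obtain ⟨a, b, c, d⟩ := mem_Tog.1 hv
  obtain ⟨-, -, p3, -, p5, -⟩ := tog_spec H hp a b d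
  ext z
  rw [mem_Tog, mem_Tog]
  by_cases e : z = v
  · subst e; simp [a, b, c, d, p3]
  · exact and_congr_right fun hz => by rw [p5 z hz e]

lemma Sv_iff (H : Hyp m r R) {h : V → ℕ} :
    Sv m r R h ↔ (Park m r h ∧ ∀ l ∈ Lf m r, h l ≠ 0) ∧ ¬ (Tog m r R h).Nonempty := by
  constructor
  · rintro ⟨hg, hI⟩
    refine ⟨⟨hg.park, hg.lf⟩, ?_⟩
    rintro ⟨v, hv⟩
    obtain ⟨a, b, c, d⟩ := mem_Tog.1 hv
    have hD := H.pos v b a
    rcases d with d | d
    · have := hg.nomax v c (by omega)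
      omega
    · have : v ∈ Iso m R (S r h) :=
        mem_Iso.2 ⟨b, fun e => ((mem_S r).1 e).elim a fun f => f d.1, d.2⟩
      rw [hI] at this
      simp at this
  · rintro ⟨⟨hp, hl⟩, hT⟩
    refine ⟨⟨hp, hl, fun v hv h0 => ?_⟩, eq_empty_of_forall_notMem fun v hv => ?_⟩
    · refine lt_of_le_of_ne (hp.le_D m r v) fun e => hT ⟨v, mem_Tog.2 ⟨?_, ?_, hv, Or.inl e⟩⟩
      · rintro rfl; exact h0 hp.1
      · exact S_sub_R H hp ((mem_S r).2 (Or.inr h0))
    · obtain ⟨a, b, c⟩ := mem_Iso.1 hv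
      have d := not_or.1 fun e => b ((mem_S r).2 e)
      have d2 : h v = 0 := not_not.1 d.2
      exact hT ⟨v, mem_Tog.2 ⟨d.1, a, fun e => hl v e d2, Or.inr ⟨d2, c⟩⟩⟩

open Classical in
lemma FJ_zero (H : Hyp m r R) {A : Type*} [CommRing A] (q : A) :
    FJ m r R 0 q (Lf m r) =
      ∑ h ∈ (Cfg m r).filter (Sv m r R), (-1) ^ uu r R h * q ^ w m r h := by
  rw [FJ, ← sum_filter_add_sum_filter_not _ (fun h => (Tog m r R h).Nonempty)]
  have e1 : ((Cfg m r).filter (fun h => ∀ l ∈ Lf m r, h l ≠ 0)).filter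
      (fun h => ¬ (Tog m r R h).Nonempty) = (Cfg m r).filter (Sv m r R) := by
    ext h; simp only [mem_filter, mem_Cfg, Sv_iff H]; tauto
  rw [e1, sum_involution (fun h _ => tog m h (pick r (Tog m r R h)))]
  · simp
  · intro h hh
    simp only [mem_filter, mem_Cfg] at hh
    obtain ⟨a, b, c, d⟩ := mem_Tog.1 (pick_mem (r := r) hh.2)
    obtain ⟨-, p2, -, -, -, p6, p7⟩ := tog_spec H hh.1.1 a b d
    rw [p2]
    by_cases h0 : h (pick r (Tog m r R h)) = 0
    · rw [(p6 h0).1]; ring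
    · rw [(p7 h0).1]; ring
  · intro h hh _ e
    simp only [mem_filter, mem_Cfg] at hh
    obtain ⟨a, b, c, d⟩ := mem_Tog.1 (pick_mem (r := r) hh.2)
    obtain ⟨-, -, -, -, -, p6, p7⟩ := tog_spec H hh.1.1 a b d
    rw [e] at p6 p7
    by_cases h0 : h (pick r (Tog m r R h)) = 0
    · exact (p6 h0).2 h0
    · exact h0 (p7 h0).2
  · intro h hh
    simp only [mem_filter, mem_Cfg] at hh ⊢
    have hm := pick_mem (r := r) hh.2
    obtain ⟨a, b, c, d⟩ := mem_Tog.1 hm
    refine ⟨⟨(tog_spec H hh.1.1 a b d).1, fun l hl => ?_⟩, ?_⟩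
    · rw [tog_ne (fun e : l = pick r (Tog m r R h) => c (e ▸ hl))]; exact hh.1.2 l hl
    · rw [Tog_tog H hh.1.1 hm]; exact hh.2
  · intro h hh
    simp only [mem_filter, mem_Cfg] at hh
    have hm := pick_mem (r := r) hh.2
    obtain ⟨a, b, c, d⟩ := mem_Tog.1 hm
    rw [Tog_tog H hh.1.1 hm]
    exact (tog_spec H hh.1.1 a b d).2.2.2.1

lemma FJ_ne (H : Hyp m r R) : FJ m r R 0 (Polynomial.X : Polynomial ℤ) (Lf m r) ≠ 0 := by
  classical
  rw [FJ_zero H]
  obtain ⟨h0, hh0⟩ := sv_ex H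
  obtain ⟨h, hh, hmax⟩ := exists_max_image ((Cfg m r).filter (Sv m r R)) (w m r)
    ⟨h0, mem_filter.2 ⟨(mem_Cfg m r).2 hh0.1.park, hh0⟩⟩
  have hmax' : ∀ g, Sv m r R g → w m r g ≤ w m r h := fun g hg =>
    hmax g (mem_filter.2 ⟨(mem_Cfg m r).2 hg.1.park, hg⟩)
  obtain ⟨t, t1, t2, -⟩ := parity H _ h rfl (mem_filter.1 hh).2 hmax'
  intro e
  have e2 := congrArg (fun p => (-1) ^ uu r R t * Polynomial.coeff p (w m r h)) e
  simp only [Polynomial.finsetSum_coeff, Polynomial.coeff_zero, mul_zero, mul_sum] at e2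
  have key : ∀ g ∈ (Cfg m r).filter (Sv m r R), (-1 : ℤ) ^ uu r R t *
      Polynomial.coeff ((-1) ^ uu r R g * Polynomial.X ^ w m r g) (w m r h) =
      if w m r g = w m r h then 1 else 0 := by
    intro g hg
    have : ((-1 : Polynomial ℤ)) ^ uu r R g = Polynomial.C ((-1) ^ uu r R g) := by simp
    rw [this, Polynomial.coeff_C_mul, Polynomial.coeff_X_pow]
    by_cases c : w m r g = w m r h
    · obtain ⟨s, s1, s2, s3⟩ := parity H _ g rfl (mem_filter.1 hg).2 (c ▸ hmax')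
      have s4 : S r s = S r t := Subset.antisymm (term_sub H s1 t1 t2) (term_sub H t1 s1 s2)
      have s5 : uu r R s = uu r R t := by rw [uu, uu, s4]
      rw [if_pos c.symm, if_pos c, mul_one, ← pow_add]
      exact Even.neg_one_pow (Nat.even_iff.2 (by omega))
    · rw [if_neg (Ne.symm c), if_neg c]; simp
  rw [sum_congr rfl key, sum_boole] at e2
  have : (((Cfg m r).filter (Sv m r R)).filter fun g => w m r g = w m r h).card = 0 := by
    exact_mod_cast e2
  rw [card_eq_zero] at this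
  have h3 : h ∈ ((Cfg m r).filter (Sv m r R)).filter fun g => w m r g = w m r h :=
    mem_filter.2 ⟨hh, rfl⟩
  rw [this] at h3
  simp at h3

end Pool.Agent.H.MP_4c49f5_co
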